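import Pool.Agent.W544.PG.Final

/-!
# The Lie algebra theorem in orthonormal coordinates (one block)
-/

set_option autoImplicit false

open Matrix Finset Module

namespace Pool.Agent.W547.TS

open Pool.Agent.W544.PG Pool.Agent.W927.PG

noncomputable section

/-- The frame. -/
def frame {n p q : ℕ} (E : Matrix (Fin n) (Fin p) ℂ) (F : Matrix (Fin n) (Fin q) ℝ) :
    Matrix (Fin n) (I p q) ℂ := fromCols E (fromCols (W927.PG.cx F) (cj E))

lemma frame_facts {n p q : ℕ} (y : Matrix (Fin n) (Fin n) ℂ) (hy : yᴴ = y)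
    (hc : cj y = -y) (E : Matrix (Fin n) (Fin p) ℂ) (F : Matrix (Fin n) (Fin q) ℝ)
    (hE : Eᴴ * E = 1) (hyE : y * E = E) (hF : Fᵀ * F = 1) (hyF : y * W927.PG.cx F = 0) :
    (frame E F)ᴴ * frame E F = 1 ∧ y * frame E F = frame E F * x0 p q ∧
      (frame E F)ᵀ * frame E F = B0 p q := by
  have hyc : y * cj E = -cj E := by
    have := congrArg cj hyE
    rw [cj_mul, hc, Matrix.neg_mul] at this
    rw [← neg_eq_iff_eq_neg]
    exact this
  have o1 : Eᴴ * cj E = 0 := by
    have h1 : Eᴴ * (y * cj E) = Eᴴ * cj E := by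
      rw [← Matrix.mul_assoc]
      congr 1
      rw [← hy, ← conjTranspose_mul, hyE]
    rw [hyc, Matrix.mul_neg] at h1
    have h2 : (2 : ℂ) • (Eᴴ * cj E) = 0 := by
      rw [two_smul]
      nth_rewrite 1 [← h1]
      exact neg_add_cancel _
    exact (smul_eq_zero.1 h2).resolve_left two_ne_zero
  have o2 : Eᴴ * W927.PG.cx F = 0 := by
    have h1 : Eᴴ * (y * W927.PG.cx F) = Eᴴ * W927.PG.cx F := by
      rw [← Matrix.mul_assoc]
      congr 1
      rw [← hy, ← conjTranspose_mul, hyE]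
    rw [← h1, hyF, Matrix.mul_zero]
  have cjz : ∀ {a b : Type} (A : Matrix a b ℂ), A = 0 → cj A = 0 := by
    intro a b A h
    rw [h]
    ext i j
    simp [cj]
  have cjH : ∀ {a b : Type} (A : Matrix a b ℂ), cj (Aᴴ) = Aᵀ := by
    intro a b A
    ext i j
    simp [cj]
  have cjT : ∀ {a b : Type} (A : Matrix a b ℂ), (cj A)ᵀ = Aᴴ := fun A => cj_transpose A
  have hFF : (W927.PG.cx F)ᵀ * W927.PG.cx F = 1 := by
    rw [← cx_transpose, ← cx_mul, hF, cx_one]
  have hFH : (W927.PG.cx F)ᴴ = (W927.PG.cx F)ᵀ := by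
    rw [← cj_transpose, cj_cx]
  have o1' : Eᵀ * E = 0 := by
    have := cjz _ o1
    rwa [cj_mul, cjH, cj_cj] at this
  have o2' : Eᵀ * W927.PG.cx F = 0 := by
    have := cjz _ o2
    rwa [cj_mul, cjH, cj_cx] at this
  have hE' : Eᵀ * cj E = 1 := by
    have := congrArg cj hE
    rwa [cj_mul, cjH, cj_one] at this
  have o3 : (W927.PG.cx F)ᵀ * E = 0 := by
    have := congrArg Matrix.transpose o2'
    rwa [transpose_mul, transpose_transpose, transpose_zero] at this
  have o3' : (W927.PG.cx F)ᵀ * cj E = 0 := by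
    have := congrArg Matrix.transpose o2
    rw [transpose_mul, transpose_zero] at this
    rw [← this]
    congr 1
  refine ⟨?_, ?_, ?_⟩
  · have p4 : (cj E)ᴴ * E = 0 := by rw [cj_conjTranspose, o1']
    have p5 : (cj E)ᴴ * W927.PG.cx F = 0 := by
      rw [cj_conjTranspose, o2']
    have p6 : (cj E)ᴴ * cj E = 1 := by rw [cj_conjTranspose, hE']
    rw [frame, conjTranspose_fromCols_eq_fromRows_conjTranspose, fromRows_mul_fromCols,
      conjTranspose_fromCols_eq_fromRows_conjTranspose, fromRows_mul_fromCols, mul_fromCols,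
      fromRows_mul, hE, hFH, o3, o3', hFF, p4, p5, p6, o2, o1, fromCols_zero, fromRows_zero,
      fromBlocks_one, fromBlocks_one]
  · rw [frame, mul_fromCols, mul_fromCols, x0, big0, fromCols_mul_fromBlocks,
      fromCols_mul_fromBlocks, hyE, hyc, hyF]
    simp only [Matrix.mul_one, Matrix.mul_zero, add_zero, zero_add, transpose_one,
      Matrix.mul_neg]
  · have q5 : (cj E)ᵀ * E = 1 := by rw [cjT, hE]
    have q6 : (cj E)ᵀ * W927.PG.cx F = 0 := by
      rw [cjT, o2]
    have q7 : (cj E)ᵀ * cj E = 0 := by rw [cjT, o1]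
    rw [frame, transpose_fromCols,
      transpose_fromCols, fromRows_mul_fromCols, fromRows_mul_fromCols, mul_fromCols, fromRows_mul,
      o1', hE', hFF, o2', o3, o3', q5, q6, q7, B0]

/-- A complex Lie algebra of skew matrices, closed under adjoints, containing a hermitian element
`x` with eigenvalues `1, 0, -1` of multiplicities `p, q, p`, such that only scalars commute with
its elements of this kind, contains all skew matrices. -/
theorem single {n p q : ℕ} (hn : n = 2 * p + q) (hp : 0 < p)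
    (hcond : p = 1 ∨ 2 * p ^ 2 * (p ^ 2 + 1) < (q - 2 * p) * (q + p))
    (h : Submodule ℂ (Matrix (Fin n) (Fin n) ℂ))
    (hsk : ∀ y ∈ h, yᵀ = -y) (hst : ∀ y ∈ h, yᴴ ∈ h)
    (hli : ∀ y ∈ h, ∀ z ∈ h, y * z - z * y ∈ h)
    (x : Matrix (Fin n) (Fin n) ℂ) (hx : x ∈ h) (hxh : xᴴ = x) (hx3 : x * x * x = x)
    (htr : (x * x).trace = 2 * p)
    (hcom : ∀ C : Matrix (Fin n) (Fin n) ℂ, (∀ y ∈ h, y * y * y = y → (y * y).trace = 2 * p →
      C * y = y * C) → ∃ c : ℂ, C = c • (1 : Matrix (Fin n) (Fin n) ℂ))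
    (Z : Matrix (Fin n) (Fin n) ℂ) (hZ : Zᵀ = -Z) : Z ∈ h := by
  have hc : cj x = -x := by
    have h1 : (cj x)ᵀ = x := by rw [cj_transpose, hxh]
    have h2 := congrArg Matrix.transpose h1
    rw [transpose_transpose, hsk x hx] at h2
    exact h2
  obtain ⟨E, F, hE, hyE, hF, hyF⟩ := herm x hxh hx3 hc htr hn
  obtain ⟨f1, f2, f3⟩ := frame_facts x hxh hc E F hE hyE hF hyF
  obtain ⟨g, hg⟩ : ∃ g, g = frame E F := ⟨_, rfl⟩
  obtain ⟨g', hg'⟩ : ∃ g' : Matrix (I p q) (Fin n) ℂ, g' = gᴴ := ⟨_, rfl⟩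
  rw [← hg] at f1 f2 f3
  have e1 : g' * g = 1 := by rw [hg']; exact f1
  have hcard : Fintype.card (I p q) = n := by
    simp [I, hn]
    ring
  have e2 : g * g' = 1 := by
    obtain ⟨e⟩ : Nonempty (I p q ≃ Fin n) := ⟨Fintype.equivOfCardEq (by simp [hcard])⟩
    have h1 : (g'.submatrix e.symm id) * (g.submatrix id e.symm) = 1 := by
      rw [← Matrix.submatrix_mul g' g e.symm id e.symm Function.bijective_id, e1]
      exact Matrix.submatrix_one_equiv e.symm
    have h2 := mul_eq_one_comm.1 h1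
    rw [← h2]
    exact (Matrix.submatrix_mul g g' id e.symm id e.symm.bijective).symm ▸ rfl
  have mem : ∀ y : Matrix (I p q) (I p q) ℂ, y ∈ h.comap (cL g g') ↔ g * y * g' ∈ h :=
    fun y => Iff.rfl
  have sk : ∀ w : Matrix (Fin n) (Fin n) ℂ, wᵀ = -w →
      wᵀ * (1 : Matrix (Fin n) (Fin n) ℂ) + (1 : Matrix (Fin n) (Fin n) ℂ) * w = 0 := by
    intro w hw
    rw [hw, Matrix.mul_one, Matrix.one_mul, neg_add_cancel]
  have hB : gᵀ * (1 : Matrix (Fin n) (Fin n) ℂ) * g = B0 p q := by rw [Matrix.mul_one, f3]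
  have hx0 : x0 p q ∈ h.comap (cL g g') := by
    rw [mem, ← f2, Matrix.mul_assoc, e2, Matrix.mul_one]
    exact hx
  have hskew : ∀ X ∈ h.comap (cL g g'), Xᵀ * B0 p q + B0 p q * X = 0 := by
    intro y hy
    rw [mem] at hy
    rw [← hB]
    exact cc_skew' e1 e2 _ y (sk _ (hsk _ hy))
  have hstar' : ∀ X ∈ h.comap (cL g g'), Xᴴ ∈ h.comap (cL g g') := by
    intro y hy
    rw [mem] at hy ⊢
    have h1 := hst _ hy
    rw [conjTranspose_mul, conjTranspose_mul, hg', conjTranspose_conjTranspose,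
      ← Matrix.mul_assoc] at h1
    rw [hg']
    exact h1
  have hlie' : ∀ X ∈ h.comap (cL g g'), ∀ Y ∈ h.comap (cL g g'),
      X * Y - Y * X ∈ h.comap (cL g g') := by
    intro a ha b hb
    rw [mem] at ha hb ⊢
    have h1 := hli _ ha _ hb
    rw [cc_mul e1, cc_mul e1] at h1
    rw [Matrix.mul_sub, Matrix.sub_mul]
    exact h1
  have hcom' : ∀ C, (∀ y ∈ h.comap (cL g g'), y * y * y = y → (y * y).trace = 2 * p →
      C * y = y * C) → ∃ c : ℂ, C = c • (1 : Matrix (I p q) (I p q) ℂ) := by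
    intro C hC
    obtain ⟨c, hc⟩ := hcom (g * C * g') (by
      intro y hy hy3 hyt
      apply comm_coord e2
      apply hC
      · rw [mem, cc_back e2]
        exact hy
      · rw [cc_mul' e2, cc_mul' e2, hy3]
      · rw [cc_mul' e2, Matrix.mul_assoc, Matrix.trace_mul_comm, Matrix.mul_assoc, e2,
          Matrix.mul_one]
        exact hyt)
    refine ⟨c, ?_⟩
    rw [← cc_fwd e1 C, hc, Matrix.mul_smul, Matrix.smul_mul, Matrix.mul_one, e1]
  have key := coreF p q (h.comap (cL g g')) hp hcond hskew hstar' hlie' hx0 hcom'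
    (g' * Z * g) (by
      rw [← hB]
      exact cc_skew e2 _ Z (sk Z hZ))
  rw [mem, cc_back e2] at key
  exact key

end

end Pool.Agent.W547.TS
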